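import Mathlib

/-!
Definitions for complex manifolds: Stein manifolds, holomorphic automorphisms, tame sets,
complete holomorphic vector fields, holomorphic flexibility, the density property.
Everywhere `X` is a complex manifold modelled on the complex normed space `E`.
-/

open scoped Manifold ContDiff Topology

namespace Pool.Agent.SteinTame

variable (E : Type*) [NormedAddCommGroup E] [NormedSpace ℂ E]
variable (X : Type*) [TopologicalSpace X] [ChartedSpace E X] [IsManifold 𝓘(ℂ, E) ω X]

/-- The holomorphically convex hull of a set `K` in `X`: the points `x` such that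
`‖f x‖ ≤ C` whenever `f` is a holomorphic function on `X` and `‖f‖ ≤ C` on `K`. -/
def holoHull (K : Set X) : Set X :=
  {x | ∀ f : X → ℂ, ContMDiff 𝓘(ℂ, E) 𝓘(ℂ, ℂ) ∞ f → ∀ C : ℝ, (∀ y ∈ K, ‖f y‖ ≤ C) → ‖f x‖ ≤ C}

/-- `X` is a (connected, Hausdorff, second countable) Stein manifold. -/
structure IsStein : Prop where
  /-- the model space is finite-dimensional -/
  finiteDimensional : FiniteDimensional ℂ E
  /-- Hausdorff -/
  t2 : T2Space X
  /-- second countable -/
  secondCountable : SecondCountableTopology X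
  /-- connected -/
  connected : ConnectedSpace X
  /-- holomorphically convex -/
  holoConvex : ∀ K : Set X, IsCompact K → IsCompact (holoHull E X K)
  /-- holomorphic functions separate points -/
  separates : ∀ x y : X, x ≠ y →
    ∃ f : X → ℂ, ContMDiff 𝓘(ℂ, E) 𝓘(ℂ, ℂ) ∞ f ∧ f x ≠ f y
  /-- global holomorphic functions give local coordinates at every point -/
  localCoordinates : ∀ x : X, ∃ f : X → E, ContMDiff 𝓘(ℂ, E) 𝓘(ℂ, E) ∞ f ∧
    Function.Bijective (mfderiv 𝓘(ℂ, E) 𝓘(ℂ, E) f x)

/-- The holomorphic automorphism group acts transitively. Here `X ≃ₘ^∞⟮𝓘(ℂ, E), 𝓘(ℂ, E)⟯ X`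
is the type of biholomorphic self-maps of `X`. -/
def AutTransitive : Prop :=
  ∀ x y : X, ∃ F : X ≃ₘ^∞⟮𝓘(ℂ, E), 𝓘(ℂ, E)⟯ X, F x = y

/-- A tame set: an infinite closed discrete set `A` such that every injective self-map of `A`
is the restriction of a holomorphic automorphism of `X`. -/
def IsTame (A : Set X) : Prop :=
  A.Infinite ∧ IsClosed A ∧ DiscreteTopology A ∧
    ∀ f : A → A, Function.Injective f →
      ∃ F : X ≃ₘ^∞⟮𝓘(ℂ, E), 𝓘(ℂ, E)⟯ X, ∀ a : A, F (a : X) = (f a : X)

variable {X}

/-- `V` is a holomorphic vector field on `X`. -/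
def IsHoloField (V : ∀ x : X, TangentSpace 𝓘(ℂ, E) x) : Prop :=
  ContMDiff 𝓘(ℂ, E) (𝓘(ℂ, E)).tangent ∞
    (fun x => (⟨x, V x⟩ : TangentBundle 𝓘(ℂ, E) X))

/-- `V` is a complete holomorphic vector field: it is holomorphic and through every point there
passes an integral curve defined for all complex times. -/
def IsCompleteField (V : ∀ x : X, TangentSpace 𝓘(ℂ, E) x) : Prop :=
  IsHoloField E V ∧ ∀ x : X, ∃ γ : ℂ → X, γ 0 = x ∧
    ∀ t : ℂ, HasMFDerivAt 𝓘(ℂ, ℂ) 𝓘(ℂ, E) γ t
      ((1 : ℂ →L[ℂ] ℂ).smulRight (V (γ t)))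

variable (X)

/-- `X` is holomorphically flexible: the values at each point of the complete holomorphic
vector fields span the tangent space. -/
def IsFlexible : Prop :=
  ∀ x : X, Submodule.span ℂ
    {v : TangentSpace 𝓘(ℂ, E) x | ∃ V : ∀ y : X, TangentSpace 𝓘(ℂ, E) y,
      IsCompleteField E V ∧ V x = v} = ⊤

variable {X}

/-- The Lie algebra of vector fields generated by the complete holomorphic ones: the smallest
family of vector fields containing these and closed under sums, complex multiples and
Lie brackets. -/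
inductive LieGenerated : (∀ x : X, TangentSpace 𝓘(ℂ, E) x) → Prop
  | complete (V : ∀ x : X, TangentSpace 𝓘(ℂ, E) x) (hV : IsCompleteField E V) : LieGenerated V
  | add (V W : ∀ x : X, TangentSpace 𝓘(ℂ, E) x) (hV : LieGenerated V) (hW : LieGenerated W) :
      LieGenerated (V + W)
  | smul (c : ℂ) (V : ∀ x : X, TangentSpace 𝓘(ℂ, E) x) (hV : LieGenerated V) :
      LieGenerated (c • V)
  | bracket (V W : ∀ x : X, TangentSpace 𝓘(ℂ, E) x) (hV : LieGenerated V)
      (hW : LieGenerated W) : LieGenerated (VectorField.mlieBracket 𝓘(ℂ, E) V W)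

variable (X)

/-- `X` has the density property: every holomorphic vector field lies in the closure, for the
compact-open topology on sections of the tangent bundle (locally uniform convergence), of the
Lie algebra generated by the complete holomorphic vector fields. -/
def HasDensityProperty : Prop :=
  ∀ (W : ∀ x : X, TangentSpace 𝓘(ℂ, E) x) (hW : IsHoloField E W),
    (⟨fun x => (⟨x, W x⟩ : TangentBundle 𝓘(ℂ, E) X), hW.continuous⟩ :
        C(X, TangentBundle 𝓘(ℂ, E) X)) ∈
      closure {s : C(X, TangentBundle 𝓘(ℂ, E) X) |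
        ∃ V : ∀ x : X, TangentSpace 𝓘(ℂ, E) x, LieGenerated E V ∧
          ∀ x, s x = (⟨x, V x⟩ : TangentBundle 𝓘(ℂ, E) X)}

end Pool.Agent.SteinTame
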