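import Pool.Agent.SteinTame.Tame

/-!
Vector fields on `X = 𝔻 × ℂ²`: the complete ones, and the Lie algebra they generate, have
vanishing disc component.
-/

open scoped Manifold ContDiff Topology
open TopologicalSpace VectorField

attribute [-instance] TopCat.of.chartedSpace

namespace Pool.Agent.SteinTame

/-- The disc component of a tangent vector of `X`. -/
noncomputable def discPart (x : DC) (v : TangentSpace 𝓘(ℂ, E3) x) : ℂ :=
  (show E3 from mfderiv 𝓘(ℂ, E3) 𝓘(ℂ, E3) (Subtype.val : DC → E3) x v) 0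

lemma discPart_eq_zero_of_complete {V : ∀ x : DC, TangentSpace 𝓘(ℂ, E3) x}
    (hV : IsCompleteField E3 V) (x : DC) : discPart x (V x) = 0 := by
  obtain ⟨γ, hγ0, hγ⟩ := hV.2 x
  have hder : ∀ t : ℂ, HasDerivAt (fun t => (γ t : E3) 0) (discPart (γ t) (V (γ t))) t := by
    intro t
    have h1 : HasMFDerivAt 𝓘(ℂ, ℂ) 𝓘(ℂ, E3) (Subtype.val ∘ γ) t
        ((mfderiv 𝓘(ℂ, E3) 𝓘(ℂ, E3) (Subtype.val : DC → E3) (γ t)).comp
          ((1 : ℂ →L[ℂ] ℂ).smulRight (V (γ t)))) :=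
      ((contMDiff_subtype_val (n := ∞)).mdifferentiable (by simp) (γ t)).hasMFDerivAt.comp t (hγ t)
    have h2 := h1.hasFDerivAt
    have h3 := ((EuclideanSpace.proj (𝕜 := ℂ) (0 : Fin 3)).hasFDerivAt
      (x := (γ t : E3))).comp t h2
    have h4 := h3.hasDerivAt
    refine HasDerivAt.congr_deriv h4 ?_
    change (EuclideanSpace.proj (𝕜 := ℂ) (0 : Fin 3))
      (mfderiv 𝓘(ℂ, E3) 𝓘(ℂ, E3) (Subtype.val : DC → E3) (γ t)
        (((1 : ℂ →L[ℂ] ℂ) 1) • (V (γ t)))) = _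
    rw [one_apply_eq_self, one_smul]
    rfl
  have hconst : ∀ t : ℂ, (γ t : E3) 0 = (γ 0 : E3) 0 := by
    intro t
    apply Differentiable.apply_eq_apply_of_bounded (f := fun t => (γ t : E3) 0)
    · intro s
      exact (hder s).differentiableAt
    · rw [Metric.isBounded_range_iff]
      refine ⟨2, fun a b => ?_⟩
      have ha : ‖(γ a : E3) 0‖ < 1 := (γ a).2
      have hb : ‖(γ b : E3) 0‖ < 1 := (γ b).2
      calc dist ((γ a : E3) 0) ((γ b : E3) 0) ≤ ‖(γ a : E3) 0‖ + ‖(γ b : E3) 0‖ :=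
            dist_le_norm_add_norm _ _
        _ ≤ 2 := by linarith
  have h5 : HasDerivAt (fun t => (γ t : E3) 0) 0 0 := by
    have : (fun t => (γ t : E3) 0) = fun _ => (γ 0 : E3) 0 := funext hconst
    rw [this]
    exact hasDerivAt_const _ _
  have h6 := (hder 0).unique h5
  rw [hγ0] at h6
  exact h6

lemma exists_discPart_ne (x : DC) : ∃ v : TangentSpace 𝓘(ℂ, E3) x, discPart x v ≠ 0 := by
  obtain ⟨v, hv⟩ := (bijective_val x).2 (EuclideanSpace.single (0 : Fin 3) (1 : ℂ))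
  refine ⟨v, ?_⟩
  rw [discPart, hv]
  simp

/-- The disc component as a linear map. -/
noncomputable def discLin (x : DC) : TangentSpace 𝓘(ℂ, E3) x →ₗ[ℂ] ℂ :=
  (EuclideanSpace.proj (𝕜 := ℂ) (0 : Fin 3)).toLinearMap.comp
    (mfderiv 𝓘(ℂ, E3) 𝓘(ℂ, E3) (Subtype.val : DC → E3) x).toLinearMap

lemma discLin_apply (x : DC) (v : TangentSpace 𝓘(ℂ, E3) x) : discLin x v = discPart x v := rfl

theorem not_isFlexible_DC : ¬ IsFlexible E3 DC := by
  intro h
  have hx := h ⟨0, zero_mem_DC⟩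
  obtain ⟨v, hv⟩ := exists_discPart_ne ⟨0, zero_mem_DC⟩
  have hle : Submodule.span ℂ {v : TangentSpace 𝓘(ℂ, E3) (⟨0, zero_mem_DC⟩ : DC) |
      ∃ V : ∀ y : DC, TangentSpace 𝓘(ℂ, E3) y,
      IsCompleteField E3 V ∧ V ⟨0, zero_mem_DC⟩ = v} ≤ LinearMap.ker (discLin ⟨0, zero_mem_DC⟩) := by
    rw [Submodule.span_le]
    rintro w ⟨V, hV, rfl⟩
    exact discPart_eq_zero_of_complete hV _
  rw [hx] at hle
  exact hv (hle (Submodule.mem_top (x := v)))

lemma source_extChartAt (x : DC) : (extChartAt 𝓘(ℂ, E3) x).source = Set.univ := by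
  ext y
  simp [extChartAt, TopologicalSpace.Opens.chartAt_eq]

/-- The representation of a vector field of `X` in the chart given by the inclusion. -/
noncomputable def rep (x₀ : DC) (V : ∀ x : DC, TangentSpace 𝓘(ℂ, E3) x) : E3 → E3 :=
  mpullbackWithin 𝓘(ℂ, E3) 𝓘(ℂ, E3) (extChartAt 𝓘(ℂ, E3) x₀).symm V (Set.range 𝓘(ℂ, E3))

lemma mfderiv_extChartAt_apply (x₀ : DC) (V : ∀ x : DC, TangentSpace 𝓘(ℂ, E3) x) (y : DC) :
    mfderiv 𝓘(ℂ, E3) 𝓘(ℂ, E3) (extChartAt 𝓘(ℂ, E3) x₀) y (V y) =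
      mpullbackWithin 𝓘(ℂ, E3) 𝓘(ℂ, E3) (extChartAt 𝓘(ℂ, E3) x₀).symm V
        (Set.range 𝓘(ℂ, E3)) (extChartAt 𝓘(ℂ, E3) x₀ y) := by
  have hy : y ∈ (extChartAt 𝓘(ℂ, E3) x₀).source := by rw [source_extChartAt]; trivial
  have A : (extChartAt 𝓘(ℂ, E3) x₀).symm (extChartAt 𝓘(ℂ, E3) x₀ y) = y :=
    (extChartAt 𝓘(ℂ, E3) x₀).left_inv hy
  have h1 : V y = mpullback 𝓘(ℂ, E3) 𝓘(ℂ, E3) (extChartAt 𝓘(ℂ, E3) x₀)
      (mpullbackWithin 𝓘(ℂ, E3) 𝓘(ℂ, E3) (extChartAt 𝓘(ℂ, E3) x₀).symm V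
        (Set.range 𝓘(ℂ, E3))) y := by
    rw [mpullback_apply, mpullbackWithin_apply,
      ← (isInvertible_mfderiv_extChartAt hy).inverse_comp_apply_of_right,
      mfderivWithin_extChartAt_symm_comp_mfderiv_extChartAt' hy, A]
    simp only [ContinuousLinearMap.inverse_id, ContinuousLinearMap.coe_id', id_eq]
  conv_lhs => rw [h1]
  rw [mpullback_apply]
  obtain ⟨e, he⟩ := isInvertible_mfderiv_extChartAt hy
  rw [← he]
  rw [ContinuousLinearMap.inverse_equiv]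
  exact e.apply_symm_apply _

lemma discPart_eq_rep (x₀ : DC) (V : ∀ x : DC, TangentSpace 𝓘(ℂ, E3) x) (y : DC) :
    discPart y (V y) = (rep x₀ V (y : E3)) 0 := by
  have h := mfderiv_extChartAt_apply x₀ V y
  have h2 : (extChartAt 𝓘(ℂ, E3) x₀ : DC → E3) = Subtype.val := (val_eq_extChartAt x₀).symm
  have h3 : (mfderiv 𝓘(ℂ, E3) 𝓘(ℂ, E3) (Subtype.val : DC → E3) y) =
    (mfderiv 𝓘(ℂ, E3) 𝓘(ℂ, E3) (extChartAt 𝓘(ℂ, E3) x₀ : DC → E3) y) := by rw [h2]
  unfold discPart rep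
  have h4 : (extChartAt 𝓘(ℂ, E3) x₀ y) = (y : E3) := congrFun h2 y
  rw [h4] at h
  rw [h3]
  exact congrArg (fun v : E3 => v 0) h

lemma fderiv_zero_comp {f : E3 → E3} (hf : ∀ z ∈ DC, (f z) 0 = 0) {x : E3} (hx : x ∈ DC)
    (v : E3) : (fderiv ℂ f x v) 0 = 0 := by
  by_cases hd : DifferentiableAt ℂ f x
  · have h1 : HasFDerivAt (fun z => (EuclideanSpace.proj (𝕜 := ℂ) (0 : Fin 3)) (f z))
        ((EuclideanSpace.proj (𝕜 := ℂ) (0 : Fin 3)).comp (fderiv ℂ f x)) x :=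
      (EuclideanSpace.proj (𝕜 := ℂ) (0 : Fin 3)).hasFDerivAt.comp x hd.hasFDerivAt
    have h2 : HasFDerivAt (fun z => (EuclideanSpace.proj (𝕜 := ℂ) (0 : Fin 3)) (f z))
        (0 : E3 →L[ℂ] ℂ) x := by
      apply (hasFDerivAt_const (0 : ℂ) x).congr_of_eventuallyEq
      filter_upwards [DC.isOpen.mem_nhds hx] with z hz
      exact hf z hz
    have h3 := h1.unique h2
    exact congrArg (fun L : E3 →L[ℂ] ℂ => L v) h3
  · rw [fderiv_zero_of_not_differentiableAt hd]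
    simp

lemma discPart_bracket {V W : ∀ x : DC, TangentSpace 𝓘(ℂ, E3) x}
    (hV : ∀ x, discPart x (V x) = 0) (hW : ∀ x, discPart x (W x) = 0) (x₀ : DC) :
    discPart x₀ (mlieBracket 𝓘(ℂ, E3) V W x₀) = 0 := by
  have hV' : ∀ z ∈ DC, (rep x₀ V z) 0 = 0 := fun z hz => by
    rw [← discPart_eq_rep x₀ V ⟨z, hz⟩]; exact hV _
  have hW' : ∀ z ∈ DC, (rep x₀ W z) 0 = 0 := fun z hz => by
    rw [← discPart_eq_rep x₀ W ⟨z, hz⟩]; exact hW _
  have h2 : (extChartAt 𝓘(ℂ, E3) x₀ : DC → E3) = Subtype.val := (val_eq_extChartAt x₀).symm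
  have h4 : (extChartAt 𝓘(ℂ, E3) x₀ x₀) = (x₀ : E3) := congrFun h2 x₀
  have key : mfderiv 𝓘(ℂ, E3) 𝓘(ℂ, E3) (extChartAt 𝓘(ℂ, E3) x₀) x₀
      (mlieBracket 𝓘(ℂ, E3) V W x₀) =
      lieBracketWithin ℂ (rep x₀ V) (rep x₀ W)
        ((extChartAt 𝓘(ℂ, E3) x₀).symm ⁻¹' Set.univ ∩ Set.range 𝓘(ℂ, E3))
        (extChartAt 𝓘(ℂ, E3) x₀ x₀) := by
    rw [← mlieBracketWithin_univ, mlieBracketWithin_apply]
    obtain ⟨e, he⟩ := isInvertible_mfderiv_extChartAt (mem_extChartAt_source (I := 𝓘(ℂ, E3)) x₀)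
    rw [← he]
    rw [ContinuousLinearMap.inverse_equiv]
    exact e.apply_symm_apply _
  have h3 : (mfderiv 𝓘(ℂ, E3) 𝓘(ℂ, E3) (Subtype.val : DC → E3) x₀) =
    (mfderiv 𝓘(ℂ, E3) 𝓘(ℂ, E3) (extChartAt 𝓘(ℂ, E3) x₀ : DC → E3) x₀) := by rw [h2]
  unfold discPart
  rw [h3]
  rw [h4] at key
  refine (congrArg (fun v : E3 => v 0) key).trans ?_
  have h5 : ((extChartAt 𝓘(ℂ, E3) x₀).symm ⁻¹' Set.univ ∩ Set.range 𝓘(ℂ, E3)) = Set.univ := by
    simp
  rw [h5, lieBracketWithin_univ, lieBracket_eq]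
  simp only [PiLp.sub_apply]
  rw [fderiv_zero_comp hW' x₀.2, fderiv_zero_comp hV' x₀.2, sub_zero]

lemma discPart_of_lieGenerated {V : ∀ x : DC, TangentSpace 𝓘(ℂ, E3) x}
    (hV : LieGenerated E3 V) : ∀ x, discPart x (V x) = 0 := by
  induction hV with
  | complete V hV => exact discPart_eq_zero_of_complete hV
  | add V W _ _ ihV ihW =>
    intro x
    rw [← discLin_apply, Pi.add_apply, map_add, discLin_apply, discLin_apply, ihV, ihW, add_zero]
  | smul c V _ ih =>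
    intro x
    rw [← discLin_apply, Pi.smul_apply, map_smul, discLin_apply, ih, smul_zero]
  | bracket V W _ _ ihV ihW => exact discPart_bracket ihV ihW

/-- The disc component is a continuous function on the tangent bundle of `X`. -/
lemma continuous_discPart :
    Continuous (fun p : TangentBundle 𝓘(ℂ, E3) DC => discPart p.1 p.2) := by
  have h1 : Continuous (tangentMap 𝓘(ℂ, E3) 𝓘(ℂ, E3) (Subtype.val : DC → E3)) :=
    (contMDiff_subtype_val (n := ∞)).continuous_tangentMap (by simp)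
  have h2 := (tangentBundleModelSpaceHomeomorph 𝓘(ℂ, E3)).continuous.comp h1
  have h3 : Continuous fun q : ModelProd E3 E3 => q.2 := continuous_snd
  have h4 := (EuclideanSpace.proj (𝕜 := ℂ) (0 : Fin 3)).continuous.comp (h3.comp h2)
  exact h4

/-- The constant vector field `∂/∂z₀` on `ℂ³`. -/
noncomputable def cfield : ∀ z : E3, TangentSpace 𝓘(ℂ, E3) z :=
  fun _ => (EuclideanSpace.single (0 : Fin 3) (1 : ℂ) : E3)

lemma contMDiff_cfield : ContMDiff 𝓘(ℂ, E3) (𝓘(ℂ, E3)).tangent ∞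
    (fun z => (⟨z, cfield z⟩ : TangentBundle 𝓘(ℂ, E3) E3)) :=
  contMDiff_vectorSpace_iff_contDiff.2 contDiff_const

/-- The vector field `∂/∂z₀` on `X`. -/
noncomputable def Wfield : ∀ x : DC, TangentSpace 𝓘(ℂ, E3) x :=
  mpullback 𝓘(ℂ, E3) 𝓘(ℂ, E3) (Subtype.val : DC → E3) cfield

lemma isHoloField_Wfield : IsHoloField E3 Wfield :=
  ContMDiff.mpullback_vectorField (n := ∞) (m := ∞) contMDiff_cfield contMDiff_subtype_val
    isInvertible_val (by simp)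

lemma discPart_Wfield (x : DC) : discPart x (Wfield x) = 1 := by
  have key : mfderiv 𝓘(ℂ, E3) 𝓘(ℂ, E3) (Subtype.val : DC → E3) x (Wfield x) = cfield x := by
    unfold Wfield
    rw [mpullback_apply]
    obtain ⟨e, he⟩ := isInvertible_val x
    rw [← he, ContinuousLinearMap.inverse_equiv]
    exact e.apply_symm_apply _
  unfold discPart
  exact (congrArg (fun v : E3 => v 0) key).trans (by simp [cfield])

theorem not_hasDensityProperty_DC : ¬ HasDensityProperty E3 DC := by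
  intro h
  have h1 := h Wfield isHoloField_Wfield
  set x₀ : DC := ⟨0, zero_mem_DC⟩
  have hcont : Continuous fun s : C(DC, TangentBundle 𝓘(ℂ, E3) DC) =>
      discPart (s x₀).1 (s x₀).2 :=
    continuous_discPart.comp (continuous_eval_const x₀)
  have hcl : IsClosed {s : C(DC, TangentBundle 𝓘(ℂ, E3) DC) |
      discPart (s x₀).1 (s x₀).2 = 0} := isClosed_eq hcont continuous_const
  have hsub : {s : C(DC, TangentBundle 𝓘(ℂ, E3) DC) |
        ∃ V : ∀ x : DC, TangentSpace 𝓘(ℂ, E3) x, LieGenerated E3 V ∧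
          ∀ x, s x = (⟨x, V x⟩ : TangentBundle 𝓘(ℂ, E3) DC)} ⊆
      {s : C(DC, TangentBundle 𝓘(ℂ, E3) DC) | discPart (s x₀).1 (s x₀).2 = 0} := by
    rintro s ⟨V, hV, hs⟩
    have := discPart_of_lieGenerated hV x₀
    simp only [Set.mem_ofPred_eq]
    rw [hs x₀]
    exact this
  have h2 := closure_minimal hsub hcl h1
  have h3 : discPart x₀ (Wfield x₀) = 0 := h2
  rw [discPart_Wfield] at h3
  exact one_ne_zero h3

end Pool.Agent.SteinTame
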