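import Mathlib

/-!
Interpolation of arbitrary values at the natural numbers by entire functions.
-/

open Filter Topology Metric

namespace Pool.Agent.SteinTame

/-- The correction terms used in the interpolation. -/
lemma exists_corr (n : ℕ) (v : ℂ) : ∃ T : ℂ → ℂ, Differentiable ℂ T ∧ (∀ j : ℕ, j < n → T j = 0) ∧
    T n = v ∧ ∀ z : ℂ, ‖z‖ ≤ ((n : ℝ) - 1) / 2 → ‖T z‖ ≤ (1 / 2 : ℝ) ^ n := by
  rcases Nat.eq_zero_or_pos n with hn | hn
  · subst hn
    refine ⟨fun _ => v, differentiable_const _, by simp, rfl, fun z hz => ?_⟩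
    exfalso
    have := norm_nonneg z
    norm_num at hz
    linarith
  · set P : ℂ → ℂ := fun z => ∏ j ∈ Finset.range n, (z - (j : ℂ)) with hP
    have hPd : Differentiable ℂ P := by
      intro z
      simp only [hP]
      fun_prop
    have hPn : P n ≠ 0 := by
      simp only [hP]
      rw [Finset.prod_ne_zero_iff]
      intro j hj
      have hj' : j < n := Finset.mem_range.mp hj
      rw [sub_ne_zero]
      exact_mod_cast hj'.ne'
    have hP0 : ∀ j : ℕ, j < n → P j = 0 := by
      intro j hj
      simp only [hP]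
      exact Finset.prod_eq_zero (Finset.mem_range.mpr hj) (sub_self _)
    have hn' : (n : ℂ) ≠ 0 := by exact_mod_cast hn.ne'
    have hnr : (0 : ℝ) < n := by exact_mod_cast hn
    -- bound of `v * P z / P n` on the closed ball
    obtain ⟨M, hM⟩ : ∃ M : ℝ, ∀ z ∈ closedBall (0 : ℂ) (((n : ℝ) - 1) / 2),
        ‖v * P z / P n‖ ≤ M := by
      apply (isCompact_closedBall _ _).exists_bound_of_continuousOn
      exact ((hPd.const_mul v).div_const _).continuous.continuousOn
    -- choose the power
    obtain ⟨m, hm⟩ : ∃ m : ℕ, |M| * (1 / 2 : ℝ) ^ m < (1 / 2 : ℝ) ^ n := by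
      have h0 : Tendsto (fun m : ℕ => |M| * (1 / 2 : ℝ) ^ m) atTop (𝓝 (|M| * 0)) :=
        (tendsto_pow_atTop_nhds_zero_of_lt_one (by norm_num) (by norm_num)).const_mul _
      rw [mul_zero] at h0
      exact (h0.eventually_lt_const (by positivity)).exists
    refine ⟨fun z => v * P z / P n * (z / n) ^ m, ?_, ?_, ?_, ?_⟩
    · exact ((hPd.const_mul v).div_const _).mul ((differentiable_id.div_const _).pow m)
    · intro j hj
      simp [hP0 j hj]
    · simp only
      rw [mul_div_assoc, div_self hPn, div_self hn']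
      simp
    · intro z hz
      have h1 : ‖v * P z / P n‖ ≤ |M| := (hM z (by simpa using hz)).trans (le_abs_self M)
      have h2 : ‖z / n‖ ≤ 1 / 2 := by
        rw [norm_div, Complex.norm_natCast, div_le_iff₀ hnr]
        linarith
      calc ‖v * P z / P n * (z / n) ^ m‖ = ‖v * P z / P n‖ * ‖z / n‖ ^ m := by
            rw [norm_mul, norm_pow]
        _ ≤ |M| * (1 / 2 : ℝ) ^ m := by gcongr
        _ ≤ (1 / 2 : ℝ) ^ n := hm.le

/-- Every sequence of complex numbers is interpolated at the natural numbers by an entire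
function. -/
theorem exists_entire_interp (a : ℕ → ℂ) :
    ∃ h : ℂ → ℂ, Differentiable ℂ h ∧ ∀ n : ℕ, h n = a n := by
  choose T hTd hT0 hTn hTb using exists_corr
  -- the partial sums
  let S : ℕ → ℂ → ℂ := fun n => Nat.rec (fun _ => 0) (fun k F => F + T k (a k - F k)) n
  have hS0 : S 0 = fun _ => 0 := rfl
  have hS1 : ∀ n, S (n + 1) = S n + T n (a n - S n n) := fun n => rfl
  set t : ℕ → ℂ → ℂ := fun n => T n (a n - S n n) with ht
  have hSsum : ∀ n z, S n z = ∑ i ∈ Finset.range n, t i z := by
    intro n z
    induction n with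
    | zero => simp [hS0]
    | succ k ih => rw [Finset.sum_range_succ, ← ih, hS1]; rfl
  have hdiffOn : ∀ R : ℝ, DifferentiableOn ℂ (fun z => ∑' i, t i z) (ball 0 R) := by
    intro R
    obtain ⟨N, hN⟩ := exists_nat_gt (2 * R + 1)
    have hb : ∀ i, ∃ M : ℝ, ∀ z ∈ closedBall (0 : ℂ) R, ‖t i z‖ ≤ M := fun i =>
      (isCompact_closedBall _ _).exists_bound_of_continuousOn (hTd i _).continuous.continuousOn
    choose M hM using hb
    refine Complex.differentiableOn_tsum_of_summable_norm
      (u := fun i => if i < N then M i else (1 / 2 : ℝ) ^ i) ?_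
      (fun i => (hTd i _).differentiableOn) isOpen_ball ?_
    · have hg : Summable (fun i : ℕ => (1 / 2 : ℝ) ^ i) := summable_geometric_two
      rw [← summable_nat_add_iff N] at hg ⊢
      refine hg.congr fun i => ?_
      simp
    · intro i w hw
      by_cases hi : i < N
      · simp only [hi, if_true]
        exact hM i w (ball_subset_closedBall hw)
      · simp only [hi, if_false]
        apply hTb
        have hw' : ‖w‖ < R := by simpa using hw
        have : (N : ℝ) ≤ i := by exact_mod_cast not_lt.mp hi
        linarith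
  refine ⟨fun z => ∑' i, t i z, ?_, ?_⟩
  · intro z
    exact (hdiffOn (‖z‖ + 1)).differentiableAt (isOpen_ball.mem_nhds (by simp))
  · intro n
    have : ∑' i, t i (n : ℂ) = ∑ i ∈ Finset.range (n + 1), t i (n : ℂ) := by
      apply tsum_eq_sum
      intro i hi
      apply hT0
      rw [Finset.mem_range, not_lt] at hi
      omega
    simp only [this]
    rw [Finset.sum_range_succ, ← hSsum]
    simp only [ht, hTn]
    ring

end Pool.Agent.SteinTame
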