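import Pool.Agent.SteinTame.Defs
import Pool.Agent.SteinTame.Interp

/-!
The manifold `X = 𝔻 × ℂ²`, realised as an open subset of `ℂ³`.
-/

open scoped Manifold ContDiff Topology
open TopologicalSpace

attribute [-instance] TopCat.of.chartedSpace

namespace Pool.Agent.SteinTame

/-- Complex Euclidean three-space. -/
abbrev E3 := EuclideanSpace ℂ (Fin 3)

/-- The open set `{z ∈ ℂ³ : |z₀| < 1}`, that is, `𝔻 × ℂ²`. -/
def DC : Opens E3 := ⟨{z | ‖z 0‖ < 1}, by
  apply isOpen_lt _ continuous_const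
  exact (EuclideanSpace.proj (𝕜 := ℂ) (0 : Fin 3)).continuous.norm⟩

lemma mem_DC {z : E3} : z ∈ DC ↔ ‖z 0‖ < 1 := Iff.rfl

lemma val_eq_extChartAt (x : DC) : (Subtype.val : DC → E3) = extChartAt 𝓘(ℂ, E3) x := by
  ext y
  simp [extChartAt, TopologicalSpace.Opens.chartAt_eq]

lemma isInvertible_val (x : DC) :
    (mfderiv 𝓘(ℂ, E3) 𝓘(ℂ, E3) (Subtype.val : DC → E3) x).IsInvertible := by
  rw [val_eq_extChartAt x]
  exact isInvertible_mfderiv_extChartAt (mem_extChartAt_source x)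

lemma bijective_val (x : DC) :
    Function.Bijective (mfderiv 𝓘(ℂ, E3) 𝓘(ℂ, E3) (Subtype.val : DC → E3) x) := by
  obtain ⟨e, he⟩ := isInvertible_val x
  rw [← he]
  exact e.bijective

/-- The coordinate function `z ↦ z i` on `X`. -/
lemma contMDiff_coord (i : Fin 3) :
    ContMDiff 𝓘(ℂ, E3) 𝓘(ℂ, ℂ) ∞ (fun x : DC => (x : E3) i) := by
  have h : ContMDiff 𝓘(ℂ, E3) 𝓘(ℂ, ℂ) ∞ (EuclideanSpace.proj (𝕜 := ℂ) (i : Fin 3)) :=
    (EuclideanSpace.proj (𝕜 := ℂ) (i : Fin 3)).contMDiff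
  exact h.comp contMDiff_subtype_val

/-- A self-map of `X` induced by a map of `ℂ³` which is smooth on `X`. -/
lemma contMDiff_of_contDiffOn {F : DC → DC} {g : E3 → E3} (hg : ContDiffOn ℂ ∞ g (DC : Set E3))
    (hF : ∀ x : DC, (F x : E3) = g x) : ContMDiff 𝓘(ℂ, E3) 𝓘(ℂ, E3) ∞ F := by
  rw [← ContMDiff.subtypeVal_comp_iff]
  intro x
  have h1 : ContMDiffAt 𝓘(ℂ, E3) 𝓘(ℂ, E3) ∞ g (x : E3) :=
    (hg.contDiffAt (DC.isOpen.mem_nhds x.2)).contMDiffAt
  have h2 : (Subtype.val ∘ F : DC → E3) = g ∘ Subtype.val := by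
    funext y
    exact hF y
  rw [h2]
  exact h1.comp x contMDiff_subtype_val.contMDiffAt

/-- Building a biholomorphic self-map of `X` from two mutually inverse maps. -/
def mkAut (g h : E3 → E3) (hg : ContDiffOn ℂ ∞ g (DC : Set E3))
    (hh : ContDiffOn ℂ ∞ h (DC : Set E3)) (hgm : ∀ z ∈ DC, g z ∈ DC) (hhm : ∀ z ∈ DC, h z ∈ DC)
    (hgh : ∀ z ∈ DC, h (g z) = z) (hhg : ∀ z ∈ DC, g (h z) = z) :
    DC ≃ₘ^∞⟮𝓘(ℂ, E3), 𝓘(ℂ, E3)⟯ DC where
  toFun x := ⟨g x, hgm x x.2⟩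
  invFun x := ⟨h x, hhm x x.2⟩
  left_inv x := Subtype.ext (hgh x x.2)
  right_inv x := Subtype.ext (hhg x x.2)
  contMDiff_toFun := contMDiff_of_contDiffOn hg fun _ => rfl
  contMDiff_invFun := contMDiff_of_contDiffOn hh fun _ => rfl

/-- The Moebius-translation map sending the origin to `a`. -/
noncomputable def moeb (a : E3) (z : E3) : E3 :=
  WithLp.toLp 2 ![(z 0 + a 0) / (1 + (starRingEnd ℂ) (a 0) * z 0), z 1 + a 1, z 2 + a 2]

/-- The shear in the last variable. -/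
noncomputable def shear2 (h : ℂ → ℂ) (z : E3) : E3 :=
  WithLp.toLp 2 ![z 0, z 1, z 2 + h (z 1)]

/-- The shear in the middle variable. -/
noncomputable def shear1 (h : ℂ → ℂ) (z : E3) : E3 :=
  WithLp.toLp 2 ![z 0, z 1 + h (z 2), z 2]

/-- The point of `ℂ³` with given coordinates. -/
lemma contDiffOn_toLp {s : Set E3} {f0 f1 f2 : E3 → ℂ} (h0 : ContDiffOn ℂ ∞ f0 s)
    (h1 : ContDiffOn ℂ ∞ f1 s) (h2 : ContDiffOn ℂ ∞ f2 s) :
    ContDiffOn ℂ ∞ (fun z => (WithLp.toLp 2 ![f0 z, f1 z, f2 z] : E3)) s := by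
  rw [contDiffOn_euclidean]
  intro i
  fin_cases i
  · simpa using h0
  · simpa using h1
  · simpa using h2

lemma contDiff_proj (i : Fin 3) : ContDiff ℂ ∞ (fun z : E3 => z i) :=
  (EuclideanSpace.proj (𝕜 := ℂ) (i : Fin 3)).contDiff

lemma one_add_ne_zero {a z : ℂ} (ha : ‖a‖ < 1) (hz : ‖z‖ < 1) :
    1 + (starRingEnd ℂ) a * z ≠ 0 := by
  intro h
  have h1 : (starRingEnd ℂ) a * z = -1 := by linear_combination h
  have h2 : ‖(starRingEnd ℂ) a * z‖ = 1 := by rw [h1]; simp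
  rw [norm_mul, RCLike.norm_conj] at h2
  have h3 : ‖a‖ * ‖z‖ < 1 := by
    calc ‖a‖ * ‖z‖ ≤ ‖a‖ * 1 := by gcongr
      _ < 1 := by linarith
  linarith

lemma norm_moeb_lt {a z : ℂ} (ha : ‖a‖ < 1) (hz : ‖z‖ < 1) :
    ‖(z + a) / (1 + (starRingEnd ℂ) a * z)‖ < 1 := by
  have hne := one_add_ne_zero ha hz
  rw [norm_div, div_lt_one (norm_pos_iff.mpr hne)]
  have ha' : Complex.normSq a < 1 := by
    rw [Complex.normSq_eq_norm_sq]; nlinarith [norm_nonneg a]
  have hz' : Complex.normSq z < 1 := by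
    rw [Complex.normSq_eq_norm_sq]; nlinarith [norm_nonneg z]
  have key : Complex.normSq (z + a) < Complex.normSq (1 + (starRingEnd ℂ) a * z) := by
    simp only [Complex.normSq_apply, Complex.add_re, Complex.add_im, Complex.mul_re,
      Complex.mul_im, Complex.one_re, Complex.one_im, Complex.conj_re, Complex.conj_im] at *
    nlinarith [mul_pos (sub_pos.mpr ha') (sub_pos.mpr hz')]
  rw [Complex.normSq_eq_norm_sq, Complex.normSq_eq_norm_sq] at key
  exact lt_of_pow_lt_pow_left₀ 2 (norm_nonneg _) key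

lemma moeb_mem {a z : E3} (ha : a ∈ DC) (hz : z ∈ DC) : moeb a z ∈ DC := by
  rw [mem_DC] at *
  simpa [moeb] using norm_moeb_lt ha hz

lemma neg_mem_DC {a : E3} (ha : a ∈ DC) : -a ∈ DC := by
  rw [mem_DC] at *
  simpa using ha

lemma moeb_neg_moeb {a z : E3} (ha : a ∈ DC) (hz : z ∈ DC) : moeb (-a) (moeb a z) = z := by
  rw [mem_DC] at ha hz
  have hne := one_add_ne_zero ha hz
  have hne2 : 1 + (starRingEnd ℂ) (a 0) * (-a 0) ≠ 0 := one_add_ne_zero ha (by simpa using ha)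
  ext i
  fin_cases i
  · simp only [moeb, PiLp.neg_apply, map_neg, Fin.zero_eta, Matrix.cons_val_zero]
    have h3 : 1 + -(starRingEnd ℂ) (a 0) * ((z 0 + a 0) / (1 + (starRingEnd ℂ) (a 0) * z 0))
        = (1 + (starRingEnd ℂ) (a 0) * (-a 0)) / (1 + (starRingEnd ℂ) (a 0) * z 0) := by
      field_simp
      ring
    rw [h3, div_add' _ _ _ hne, div_div_div_cancel_right₀ hne, div_eq_iff hne2]
    ring
  · simp [moeb]
  · simp [moeb]

lemma moeb_moeb_neg {a z : E3} (ha : a ∈ DC) (hz : z ∈ DC) : moeb a (moeb (-a) z) = z := by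
  have := moeb_neg_moeb (neg_mem_DC ha) hz
  simpa using this

lemma contDiffOn_moeb {a : E3} (ha : a ∈ DC) : ContDiffOn ℂ ∞ (moeb a) (DC : Set E3) := by
  apply contDiffOn_toLp
  · apply ContDiffOn.div
    · exact ((contDiff_proj 0).add contDiff_const).contDiffOn
    · exact (contDiff_const.add (contDiff_const.mul (contDiff_proj 0))).contDiffOn
    · intro z hz
      exact one_add_ne_zero (mem_DC.mp ha) (mem_DC.mp hz)
  · exact ((contDiff_proj 1).add contDiff_const).contDiffOn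
  · exact ((contDiff_proj 2).add contDiff_const).contDiffOn

/-- The automorphism of `X` given by a Moebius map in the first and translations in the other
variables. -/
noncomputable def moebAut (a : E3) (ha : a ∈ DC) : DC ≃ₘ^∞⟮𝓘(ℂ, E3), 𝓘(ℂ, E3)⟯ DC :=
  mkAut (moeb a) (moeb (-a)) (contDiffOn_moeb ha) (contDiffOn_moeb (neg_mem_DC ha))
    (fun _ hz => moeb_mem ha hz) (fun _ hz => moeb_mem (neg_mem_DC ha) hz)
    (fun _ hz => moeb_neg_moeb ha hz) (fun _ hz => moeb_moeb_neg ha hz)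

lemma autTransitive_DC : AutTransitive E3 DC := by
  intro x y
  refine ⟨(moebAut x x.2).symm.trans (moebAut y y.2), ?_⟩
  have h1 : ((moebAut x x.2).symm x : E3) = 0 := by
    change moeb (-x) x = 0
    ext i
    fin_cases i <;> simp [moeb]
  have h2 : (moebAut x x.2).symm x = ⟨0, by rw [mem_DC]; simp⟩ := Subtype.ext h1
  rw [Diffeomorph.coe_trans, Function.comp_apply, h2]
  apply Subtype.ext
  change moeb y 0 = y
  ext i
  fin_cases i <;> simp [moeb]

end Pool.Agent.SteinTame
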