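import Pool.Agent.SteinTame.Model

/-!
`X = 𝔻 × ℂ²` is a Stein manifold, with a tame set.
-/

open scoped Manifold ContDiff Topology
open TopologicalSpace

attribute [-instance] TopCat.of.chartedSpace

namespace Pool.Agent.SteinTame

lemma convex_DC : Convex ℝ (DC : Set E3) := by
  intro x hx y hy a b ha hb hab
  have hx' : ‖x 0‖ < 1 := hx
  have hy' : ‖y 0‖ < 1 := hy
  change ‖(a • x + b • y) 0‖ < 1
  have h1 : (a • x + b • y) 0 = (a : ℂ) * x 0 + (b : ℂ) * y 0 := by simp
  rw [h1]
  calc ‖(a : ℂ) * x 0 + (b : ℂ) * y 0‖ ≤ a * ‖x 0‖ + b * ‖y 0‖ := by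
        refine (norm_add_le _ _).trans ?_
        rw [norm_mul, norm_mul, Complex.norm_real, Complex.norm_real, Real.norm_of_nonneg ha,
          Real.norm_of_nonneg hb]
    _ < 1 := by
        rcases eq_or_lt_of_le ha with h0 | h0
        · subst h0
          have : b = 1 := by linarith
          subst this
          linarith
        · have : b * ‖y 0‖ ≤ b * 1 := by gcongr
          nlinarith

lemma zero_mem_DC : (0 : E3) ∈ DC := by
  rw [mem_DC]; simp

instance : ConnectedSpace DC :=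
  Subtype.connectedSpace ⟨⟨0, zero_mem_DC⟩, convex_DC.isPreconnected⟩

lemma isClosed_holoHull (K : Set DC) : IsClosed (holoHull E3 DC K) := by
  have : holoHull E3 DC K = ⋂ (f : DC → ℂ) (_ : ContMDiff 𝓘(ℂ, E3) 𝓘(ℂ, ℂ) ∞ f) (C : ℝ)
      (_ : ∀ y ∈ K, ‖f y‖ ≤ C), {x | ‖f x‖ ≤ C} := by
    ext x
    simp [holoHull]
  rw [this]
  refine isClosed_iInter fun f => isClosed_iInter fun hf => isClosed_iInter fun C =>
    isClosed_iInter fun _ => ?_
  exact isClosed_le hf.continuous.norm continuous_const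

lemma isCompact_holoHull (K : Set DC) (hK : IsCompact K) : IsCompact (holoHull E3 DC K) := by
  have hcont : ∀ i : Fin 3, Continuous fun x : DC => ‖(x : E3) i‖ :=
    fun i => (contMDiff_coord i).continuous.norm
  have h0 : ∃ C < (1 : ℝ), ∀ y ∈ K, ‖(y : E3) 0‖ ≤ C := by
    rcases K.eq_empty_or_nonempty with h | h
    · exact ⟨0, by norm_num, by simp [h]⟩
    · obtain ⟨y, hy, hmax⟩ := hK.exists_isMaxOn h (hcont 0).continuousOn
      exact ⟨‖(y : E3) 0‖, y.2, fun z hz => hmax hz⟩
  have hi : ∀ i : Fin 3, ∃ C : ℝ, ∀ y ∈ K, ‖(y : E3) i‖ ≤ C := by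
    intro i
    obtain ⟨C, hC⟩ := hK.exists_bound_of_continuousOn (hcont i).continuousOn
    exact ⟨C, fun y hy => by simpa using hC y hy⟩
  obtain ⟨C0, hC0, hK0⟩ := h0
  obtain ⟨C1, hK1⟩ := hi 1
  obtain ⟨C2, hK2⟩ := hi 2
  set B : Set E3 := {z | ‖z 0‖ ≤ C0 ∧ ‖z 1‖ ≤ C1 ∧ ‖z 2‖ ≤ C2} with hB
  have hBc : IsCompact B := by
    apply Metric.isCompact_of_isClosed_isBounded
    · have hp : ∀ i : Fin 3, Continuous fun z : E3 => ‖z i‖ := fun i =>
        (contDiff_proj i).continuous.norm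
      exact (isClosed_le (hp 0) continuous_const).inter
        ((isClosed_le (hp 1) continuous_const).inter (isClosed_le (hp 2) continuous_const))
    · rw [isBounded_iff_forall_norm_le]
      refine ⟨C0 + C1 + C2, fun z hz => ?_⟩
      obtain ⟨hz0, hz1, hz2⟩ := hz
      have h1 : ‖z‖ ^ 2 = ‖z 0‖ ^ 2 + ‖z 1‖ ^ 2 + ‖z 2‖ ^ 2 := by
        rw [EuclideanSpace.norm_sq_eq, Fin.sum_univ_three]
      have n0 := norm_nonneg (z 0)
      have n1 := norm_nonneg (z 1)
      have n2 := norm_nonneg (z 2)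
      apply le_of_sq_le_sq _ (by linarith)
      rw [h1]
      nlinarith [mul_nonneg n0 n1, mul_nonneg n0 n2, mul_nonneg n1 n2]
  have hBsub : B ⊆ Set.range (Subtype.val : DC → E3) := by
    intro z hz
    exact ⟨⟨z, lt_of_le_of_lt hz.1 hC0⟩, rfl⟩
  have hBpre : IsCompact (Subtype.val ⁻¹' B : Set DC) :=
    (Topology.IsInducing.subtypeVal.isCompact_preimage_iff hBsub).mpr hBc
  refine hBpre.of_isClosed_subset (isClosed_holoHull K) ?_
  intro x hx
  exact ⟨hx _ (contMDiff_coord 0) C0 hK0, hx _ (contMDiff_coord 1) C1 hK1,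
    hx _ (contMDiff_coord 2) C2 hK2⟩

theorem isStein_DC : IsStein E3 DC where
  finiteDimensional := inferInstance
  t2 := inferInstance
  secondCountable := inferInstance
  connected := inferInstance
  holoConvex := isCompact_holoHull
  separates := by
    intro x y hxy
    by_contra hcon
    push Not at hcon
    apply hxy
    apply Subtype.ext
    ext i
    exact hcon _ (contMDiff_coord i)
  localCoordinates := fun x => ⟨Subtype.val, contMDiff_subtype_val, bijective_val x⟩

end Pool.Agent.SteinTame
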