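import Pool.Agent.SteinTame.Stein

/-!
`X = 𝔻 × ℂ²` contains a tame set.
-/

open scoped Manifold ContDiff Topology
open TopologicalSpace

attribute [-instance] TopCat.of.chartedSpace

namespace Pool.Agent.SteinTame

lemma shear2_mem (h : ℂ → ℂ) {z : E3} (hz : z ∈ DC) : shear2 h z ∈ DC := by
  rw [mem_DC] at *
  simpa [shear2] using hz

lemma shear1_mem (h : ℂ → ℂ) {z : E3} (hz : z ∈ DC) : shear1 h z ∈ DC := by
  rw [mem_DC] at *
  simpa [shear1] using hz

lemma contDiffOn_shear2 {h : ℂ → ℂ} (hh : Differentiable ℂ h) :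
    ContDiffOn ℂ ∞ (shear2 h) (DC : Set E3) := by
  apply contDiffOn_toLp
  · exact (contDiff_proj 0).contDiffOn
  · exact (contDiff_proj 1).contDiffOn
  · exact ((contDiff_proj 2).add (hh.contDiff.comp (contDiff_proj 1))).contDiffOn

lemma contDiffOn_shear1 {h : ℂ → ℂ} (hh : Differentiable ℂ h) :
    ContDiffOn ℂ ∞ (shear1 h) (DC : Set E3) := by
  apply contDiffOn_toLp
  · exact (contDiff_proj 0).contDiffOn
  · exact ((contDiff_proj 1).add (hh.contDiff.comp (contDiff_proj 2))).contDiffOn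
  · exact (contDiff_proj 2).contDiffOn

lemma shear2_shear2 (h k : ℂ → ℂ) (hk : ∀ z, h z + k z = 0) (z : E3) :
    shear2 k (shear2 h z) = z := by
  ext i
  fin_cases i
  · simp [shear2]
  · simp [shear2]
  · simp [shear2, add_assoc, hk]

lemma shear1_shear1 (h k : ℂ → ℂ) (hk : ∀ z, h z + k z = 0) (z : E3) :
    shear1 k (shear1 h z) = z := by
  ext i
  fin_cases i
  · simp [shear1]
  · simp [shear1, add_assoc, hk]
  · simp [shear1]

/-- The shear automorphism in the last variable. -/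
noncomputable def shear2Aut (h : ℂ → ℂ) (hh : Differentiable ℂ h) :
    DC ≃ₘ^∞⟮𝓘(ℂ, E3), 𝓘(ℂ, E3)⟯ DC :=
  mkAut (shear2 h) (shear2 fun z => -h z) (contDiffOn_shear2 hh) (contDiffOn_shear2 hh.neg)
    (fun _ hz => shear2_mem h hz) (fun _ hz => shear2_mem _ hz)
    (fun z _ => shear2_shear2 _ _ (by simp) z) (fun z _ => shear2_shear2 _ _ (by simp) z)

/-- The shear automorphism in the middle variable. -/
noncomputable def shear1Aut (h : ℂ → ℂ) (hh : Differentiable ℂ h) :
    DC ≃ₘ^∞⟮𝓘(ℂ, E3), 𝓘(ℂ, E3)⟯ DC :=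
  mkAut (shear1 h) (shear1 fun z => -h z) (contDiffOn_shear1 hh) (contDiffOn_shear1 hh.neg)
    (fun _ hz => shear1_mem h hz) (fun _ hz => shear1_mem _ hz)
    (fun z _ => shear1_shear1 _ _ (by simp) z) (fun z _ => shear1_shear1 _ _ (by simp) z)

/-- The points `(0, n, 0)`. -/
noncomputable def pt (n : ℕ) : DC := ⟨WithLp.toLp 2 ![0, (n : ℂ), 0], by
  rw [mem_DC]; simp⟩

lemma pt_injective : Function.Injective pt := by
  intro m n h
  have h1 : (pt m : E3) 1 = (pt n : E3) 1 := by rw [h]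
  simpa [pt] using h1

lemma isClosed_range_natCast : IsClosed (Set.range (Nat.cast : ℕ → ℂ)) := by
  have h1 : Set.range (Nat.cast : ℕ → ℂ) = Complex.ofReal '' Set.range (Nat.cast : ℕ → ℝ) := by
    rw [← Set.range_comp]
    congr 1
  rw [h1]
  exact Complex.isometry_ofReal.isClosedEmbedding.isClosedMap _ Nat.isClosedEmbedding_coe_real.isClosed_range

lemma isClosed_range_pt : IsClosed (Set.range pt) := by
  have h1 : Set.range pt = {x : DC | (x : E3) 0 = 0} ∩ ({x : DC | (x : E3) 2 = 0} ∩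
      (fun x : DC => (x : E3) 1) ⁻¹' Set.range (Nat.cast : ℕ → ℂ)) := by
    ext x
    constructor
    · rintro ⟨n, rfl⟩
      refine ⟨by simp [pt], by simp [pt], ⟨n, by simp [pt]⟩⟩
    · rintro ⟨h0, h2, ⟨n, hn⟩⟩
      refine ⟨n, Subtype.ext ?_⟩
      ext i
      fin_cases i
      · simpa [pt] using h0.symm
      · simpa [pt] using hn
      · simpa [pt] using h2.symm
  rw [h1]
  exact (isClosed_eq (contMDiff_coord 0).continuous continuous_const).inter
    ((isClosed_eq (contMDiff_coord 2).continuous continuous_const).inter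
      (isClosed_range_natCast.preimage (contMDiff_coord 1).continuous))

lemma discrete_range_pt : DiscreteTopology (Set.range pt) := by
  apply DiscreteTopology.of_forall_le_dist (r := 1) one_pos
  rintro ⟨_, ⟨m, rfl⟩⟩ ⟨_, ⟨n, rfl⟩⟩ hmn
  have hmn' : m ≠ n := fun h => hmn (by subst h; rfl)
  change 1 ≤ dist (pt m : E3) (pt n : E3)
  rw [EuclideanSpace.dist_eq, Fin.sum_univ_three]
  apply Real.le_sqrt_of_sq_le
  have h1 : dist (((pt m : E3)) 1) (((pt n : E3)) 1) ^ 2 = ((m : ℝ) - n) ^ 2 := by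
    simp only [pt, Fin.isValue, Matrix.cons_val_one, Matrix.cons_val_zero]
    rw [Complex.dist_eq, ← Complex.ofReal_natCast, ← Complex.ofReal_natCast,
      ← Complex.ofReal_sub, Complex.norm_real, Real.norm_eq_abs, sq_abs]
  have h2 : (1 : ℝ) ≤ ((m : ℝ) - n) ^ 2 := by
    have h3 : (1 : ℤ) ≤ ((m : ℤ) - n) ^ 2 := by
      have : ((m : ℤ) - n) ≠ 0 := sub_ne_zero.mpr (by exact_mod_cast hmn')
      have := sq_pos_of_ne_zero this
      omega
    exact_mod_cast h3
  rw [h1]
  nlinarith [sq_nonneg (dist (((pt m : E3)) 0) (((pt n : E3)) 0)),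
    sq_nonneg (dist (((pt m : E3)) 2) (((pt n : E3)) 2))]

theorem isTame_range_pt : IsTame E3 DC (Set.range pt) := by
  refine ⟨Set.infinite_range_of_injective pt_injective, isClosed_range_pt, discrete_range_pt, ?_⟩
  intro f hf
  have h1 : ∀ n : ℕ, ∃ m : ℕ, pt m = (f ⟨pt n, ⟨n, rfl⟩⟩ : DC) := fun n =>
    (f ⟨pt n, ⟨n, rfl⟩⟩).2
  choose σ hσ using h1
  have hσi : Function.Injective σ := by
    intro m n hmn
    have h2 : (f ⟨pt m, ⟨m, rfl⟩⟩ : DC) = (f ⟨pt n, ⟨n, rfl⟩⟩ : DC) := by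
      rw [← hσ, ← hσ, hmn]
    have h3 := hf (Subtype.ext h2)
    exact pt_injective (congrArg Subtype.val h3)
  obtain ⟨h, hd, hh⟩ := exists_entire_interp fun n => (σ n : ℂ)
  obtain ⟨k, kd, hk⟩ := exists_entire_interp
    (Function.extend σ (fun n => (σ n : ℂ) - n) 0)
  have hk' : ∀ n : ℕ, k (σ n : ℂ) = σ n - n := by
    intro n
    rw [hk, hσi.extend_apply]
  refine ⟨((shear2Aut h hd).trans (shear1Aut k kd)).trans
    (shear2Aut (fun z => -z) differentiable_id.neg), ?_⟩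
  rintro ⟨_, ⟨n, rfl⟩⟩
  rw [← hσ]
  apply Subtype.ext
  change shear2 (fun z => -z) (shear1 k (shear2 h (pt n : E3))) = (pt (σ n) : E3)
  ext i
  fin_cases i
  · simp [shear2, shear1, pt]
  · simp [shear2, shear1, pt, hh, hk']
  · simp [shear2, shear1, pt, hh, hk']

end Pool.Agent.SteinTame
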